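import Pool.Agent.R341.SG.Star
import Pool.Agent.R341.SG.TR
import Pool.Agent.R341.SG.MT
import Pool.Agent.R43.SG.Cnt
import Pool.Agent.R43.SG.PH
import Pool.Agent.R43.SG.Ord
import Pool.Agent.R712.SGR1
import Pool.Agent.R842.SG.R2
import Pool.Agent.R619.SG.JE
import Pool.Agent.R938.SG.Lab
import Pool.Agent.R55.SG.Conc
import Pool.Agent.R700.SG.MINK
import Pool.Agent.R451.SG.ST
import Pool.Agent.R26.SG.Wt
import Pool.Agent.R466.SG.Mult
import Pool.Agent.R359.SG.Col
import Pool.Agent.R341.SG.Mtf2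
import Pool.Agent.R361.SG.Lym
import Pool.Agent.R568.SG.Ac
import Pool.Agent.R568.SG.Poi
import Pool.Agent.R789.SG.One
import Pool.Agent.R341.SG.VV

/-! # The full transformation semigroup has few subsemigroups (for even `n`)

For every `c > 1` and all large even `n` the number `s(T_n)` of (nonempty) subsemigroups of the
full transformation semigroup `T_n = Function.End (Fin n)` is less than `c ^ (n ^ n)`.
In particular there is no `c > 1` with `s(T_n) ≥ c ^ (n ^ n)` for all large `n`. -/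

namespace Pool.Agent.Results.MP_2b9fb5_al.FewSubsemigroups

open Pool.Agent.R341.SG

theorem sr2 : SR2 := Pool.Agent.R842.SG.r2 Pool.Agent.R712.SG.r1

theorem slab : SLAB := Pool.Agent.R938.SG.lab Pool.Agent.R341.SG.VV.v (Pool.Agent.R619.SG.je sr2)

theorem slym : SLYM := Pool.Agent.R361.SG.lym Pool.Agent.R568.SG.ac Pool.Agent.R55.SG.sconc

theorem sstar : SSTAR := Pool.Agent.R341.SG.star Pool.Agent.R568.SG.poi
  (Pool.Agent.R451.SG.st Pool.Agent.R789.SG.one Pool.Agent.R700.SG.x) Pool.Agent.R26.SG.t_WT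
  (Pool.Agent.R341.SG.tr Pool.Agent.R466.SG.smult Pool.Agent.R55.SG.sconc)
  Pool.Agent.R55.SG.sconc Pool.Agent.R359.SG.col
  (Pool.Agent.R341.SG.mtf (Pool.Agent.R341.SG.mt sr2))

theorem sind : SIND := Pool.Agent.R341.SG.ind Pool.Agent.R43.SG.ph Pool.Agent.R43.SG.ord
  slab slym sstar

theorem result :
    (∀ c : ℝ, 1 < c → ∃ n0 : ℕ, ∀ n : ℕ, n0 ≤ n → Even n →
      (Nat.card {S : Subsemigroup (Function.End (Fin n)) //
        (S : Set (Function.End (Fin n))).Nonempty} : ℝ) < c ^ (n ^ n)) ∧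
    ¬ ∃ c : ℝ, 1 < c ∧ ∃ n0 : ℕ, ∀ n : ℕ, n0 ≤ n →
      c ^ (n ^ n) ≤ (Nat.card {S : Subsemigroup (Function.End (Fin n)) //
        (S : Set (Function.End (Fin n))).Nonempty} : ℝ) := by
  have key : ∀ c : ℝ, 1 < c → ∃ n0 : ℕ, ∀ n : ℕ, n0 ≤ n → Even n →
      (Nat.card {S : Subsemigroup (Function.End (Fin n)) //
        (S : Set (Function.End (Fin n))).Nonempty} : ℝ) < c ^ (n ^ n) :=
    fun c hc => Pool.Agent.R43.SG.cnt c hc sind
  refine ⟨key, ?_⟩
  rintro ⟨c, hc, n0, h⟩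
  obtain ⟨n1, h1⟩ := key c hc
  have e : n0 + n1 ≤ 2 * (n0 + n1) := by omega
  exact absurd (h (2 * (n0 + n1)) (by omega))
    (not_le.mpr (h1 (2 * (n0 + n1)) (by omega) (even_two_mul _)))

end Pool.Agent.Results.MP_2b9fb5_al.FewSubsemigroups
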