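import Pool.Agent.R94.TS.A
import Pool.Agent.R94.TS.B

set_option autoImplicit false

/-!
The full transformation semigroup `T_n` has at least `2 ^ (c n^n / √n)` subsemigroups.
-/

namespace Pool.Agent.Results.MP_2b9fb5_al.SubsemigroupCount

open Pool.Agent.R94.TS

/-- There is `c > 0` such that for all `n ≥ 4` the full transformation semigroup on `n` points has at least
`2 ^ (c n^n / √n)` nonempty subsemigroups. -/
theorem result : ∃ c : ℝ, 0 < c ∧ ∀ n : ℕ, 4 ≤ n →
    (2 : ℝ) ^ (c * (n : ℝ) ^ n / Real.sqrt (n : ℝ)) ≤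
      (Nat.card {S : Subsemigroup (Function.End (Fin n)) //
        (S : Set (Function.End (Fin n))).Nonempty} : ℝ) :=
  final sA sB

end Pool.Agent.Results.MP_2b9fb5_al.SubsemigroupCount
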